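import Pool.Agent.Helper5.WD.Stmts

set_option autoImplicit false

/-! # Row GRW: Rosenfeld's induction -/

open Finset Pool.Agent.Helper8.UN Pool.Agent.Helper5.FV

namespace Pool.Agent.Helper5.WD

/-- `f`, put equal to zero on `T` minus `a` -/
def grw_rs {n : ℕ} (T : Finset (Fin n)) (a : Fin n) (f : Fin n → ℕ) : Fin n → ℕ :=
  fun v => if v ∈ T.erase a then 0 else f v

theorem grw_rs_in {n : ℕ} {T : Finset (Fin n)} {a v : Fin n} (f : Fin n → ℕ)
    (h : v ∈ T.erase a) : grw_rs T a f v = 0 := by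
  unfold grw_rs; rw [if_pos h]

theorem grw_rs_out {n : ℕ} {T : Finset (Fin n)} {a v : Fin n} (f : Fin n → ℕ)
    (h : v ∉ T.erase a) : grw_rs T a f v = f v := by
  unfold grw_rs; rw [if_neg h]

theorem grw_CC {n k : ℕ} {E : Finset (Finset (Fin n))} {W : Finset (Fin n)} {f : Fin n → ℕ} :
    f ∈ CC E W k ↔ (∀ v, f v ∈ (if v ∈ W then Finset.Icc 1 k else {0} : Finset ℕ)) ∧
      Prp E W f := by
  classical
  unfold CC
  rw [Finset.mem_filter, Fintype.mem_piFinset]

theorem grw_mf {α : Type} (p : α → Prop) (dp : DecidablePred p) (s : Finset α) (a : α) :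
    a ∈ @Finset.filter α p dp s ↔ a ∈ s ∧ p a := Finset.mem_filter

theorem grw_SS {n k : ℕ} {E : Finset (Finset (Fin n))} {W : Finset (Fin n)} {f : Fin n → ℕ} :
    f ∈ SS E W k ↔ f ∈ CC E W k ∧ ∀ i ∈ Finset.Icc 1 k, ∃ v ∈ W, f v = i := by
  unfold SS
  exact grw_mf _ _ _ _

theorem grw_rsCC {n k : ℕ} {E : Finset (Finset (Fin n))} {V T : Finset (Fin n)} {a : Fin n}
    {f : Fin n → ℕ} (hf : f ∈ CC E V k) : grw_rs T a f ∈ CC E (V \ T.erase a) k := by
  rw [grw_CC] at hf ⊢
  refine ⟨fun v => ?_, ?_⟩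
  · by_cases hv : v ∈ T.erase a
    · rw [grw_rs_in f hv, if_neg (fun h => (Finset.mem_sdiff.1 h).2 hv)]
      exact Finset.mem_singleton_self 0
    · rw [grw_rs_out f hv]
      have h1 := hf.1 v
      by_cases hV : v ∈ V
      · rw [if_pos (Finset.mem_sdiff.2 ⟨hV, hv⟩)]
        rwa [if_pos hV] at h1
      · rw [if_neg (fun h => hV (Finset.mem_sdiff.1 h).1)]
        rwa [if_neg hV] at h1
  · intro e he heV
    obtain ⟨u, hu, w, hw, hne⟩ := hf.2 e he (heV.trans Finset.sdiff_subset)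
    refine ⟨u, hu, w, hw, ?_⟩
    rw [grw_rs_out f (Finset.mem_sdiff.1 (heV hu)).2, grw_rs_out f (Finset.mem_sdiff.1 (heV hw)).2]
    exact hne

theorem grw_rsSS {n k : ℕ} {E : Finset (Finset (Fin n))} {V T : Finset (Fin n)} {a : Fin n}
    {f : Fin n → ℕ} (hTV : T ⊆ V) (ha : a ∈ T) (hc : ∀ v ∈ T, f v = f a) (hf : f ∈ SS E V k) :
    grw_rs T a f ∈ SS E (V \ T.erase a) k := by
  rw [grw_SS] at hf ⊢
  refine ⟨grw_rsCC hf.1, fun i hi => ?_⟩
  obtain ⟨v, hv, hvi⟩ := hf.2 i hi
  by_cases h : v ∈ T.erase a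
  · refine ⟨a, Finset.mem_sdiff.2 ⟨hTV ha, Finset.notMem_erase a T⟩, ?_⟩
    rw [grw_rs_out f (Finset.notMem_erase a T), ← hc v (Finset.mem_of_mem_erase h), hvi]
  · exact ⟨v, Finset.mem_sdiff.2 ⟨hv, h⟩, by rw [grw_rs_out f h, hvi]⟩

theorem grw_chain {n k D : ℕ} (F : Finset (Fin n) → Finset (Fin n → ℕ)) (V : Finset (Fin n))
    (hI : ∀ U z, U ⊆ V → z ∈ U → (k - D) * (F (U.erase z)).card ≤ (F U).card)
    (T : Finset (Fin n)) (hTV : T ⊆ V) : (k - D) ^ T.card * (F (V \ T)).card ≤ (F V).card := by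
  induction T using Finset.induction_on with
  | empty => simp
  | insert z T hz ih =>
    have h1 := ih ((Finset.subset_insert z T).trans hTV)
    have h2 : V \ insert z T = (V \ T).erase z := by
      ext w
      simp only [Finset.mem_sdiff, Finset.mem_insert, Finset.mem_erase, not_or]
      tauto
    have h3 := hI (V \ T) z Finset.sdiff_subset
      (Finset.mem_sdiff.2 ⟨hTV (Finset.mem_insert_self z T), hz⟩)
    rw [Finset.card_insert_of_notMem hz, h2, pow_succ]
    calc (k - D) ^ T.card * (k - D) * (F ((V \ T).erase z)).card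
        = (k - D) ^ T.card * ((k - D) * (F ((V \ T).erase z)).card) := by ring
      _ ≤ (k - D) ^ T.card * (F (V \ T)).card := Nat.mul_le_mul_left _ h3
      _ ≤ (F V).card := h1

/-- monochromatic sets -/
theorem grw_mono {n k D : ℕ} (F : Finset (Fin n) → Finset (Fin n → ℕ)) (V T : Finset (Fin n))
    (hTV : T ⊆ V) (hT : T.Nonempty)
    (hR : ∀ a ∈ T, ∀ f ∈ F V, (∀ v ∈ T, f v = f a) → grw_rs T a f ∈ F (V \ T.erase a))
    (hI : ∀ U z, U ⊆ V → z ∈ U → (k - D) * (F (U.erase z)).card ≤ (F U).card) :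
    (k - D) ^ (T.card - 1) * ((F V).filter (fun f => ∀ u ∈ T, ∀ v ∈ T, f u = f v)).card ≤
      (F V).card := by
  obtain ⟨a, ha⟩ := hT
  have h1 : ((F V).filter (fun f => ∀ u ∈ T, ∀ v ∈ T, f u = f v)).card ≤
      (F (V \ T.erase a)).card := by
    refine Finset.card_le_card_of_injOn (grw_rs T a) ?_ ?_
    · intro f hf
      rw [Finset.mem_coe, Finset.mem_filter] at hf
      rw [Finset.mem_coe]
      exact hR a ha f hf.1 fun v hv => hf.2 v hv a ha
    · intro f hf g hg hfg
      rw [Finset.mem_coe, Finset.mem_filter] at hf hg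
      funext v
      have hall : ∀ w, w ∉ T.erase a → f w = g w := by
        intro w hw
        have h2 := congrFun hfg w
        rwa [grw_rs_out f hw, grw_rs_out g hw] at h2
      by_cases hv : v ∈ T.erase a
      · have hvT := Finset.mem_of_mem_erase hv
        rw [hf.2 v hvT a ha, hg.2 v hvT a ha]
        exact hall a (Finset.notMem_erase a T)
      · exact hall v hv
  have h2 := grw_chain F V hI (T.erase a) ((Finset.erase_subset a T).trans hTV)
  rw [Finset.card_erase_of_mem ha] at h2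
  exact (Nat.mul_le_mul_left _ h1).trans h2

/-- the blocked colours -/
theorem grw_bk {n : ℕ} (E : Finset (Finset (Fin n))) (W : Finset (Fin n)) (k r D0 : ℕ)
    (f : Fin n → ℕ) (y : Fin n) (hE : Two E) (hr : 4 ≤ r) (hNB : NB E D0) :
    bk E W k f y ≤ D0 +
      ((E.filter (fun e => (y ∈ e ∧ 3 ≤ e.card ∧ e.card < r) ∧ e ⊆ W)).filter
        (fun e => ∀ u ∈ e.erase y, ∀ v ∈ e.erase y, f u = f v)).card +
      (((W.erase y).powersetCard (r - 1)).filter (fun S => ∀ u ∈ S, ∀ v ∈ S, f u = f v)).card := by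
  classical
  have hch : ∀ i, Blk E W f y i → ∃ e ∈ E, e ⊆ W ∧ y ∈ e ∧ ∀ u ∈ e, u ≠ y → f u = i :=
    fun i h => h
  choose! g hg1 hg2 hg3 hg4 using hch
  obtain ⟨B, hB⟩ : ∃ B : Finset ℕ, B = (Finset.Icc 1 k).filter (fun i => Blk E W f y i) := ⟨_, rfl⟩
  have hBm : ∀ i, i ∈ B → Blk E W f y i := by
    intro i hi
    rw [hB, Finset.mem_filter] at hi
    exact hi.2
  have hbk : bk E W k f y = B.card := by
    rw [hB]; unfold bk; congr 1
  have hu : ∀ i ∈ B, ∃ u ∈ g i, u ≠ y := by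
    intro i hi
    exact Finset.exists_mem_ne (hE (g i) (hg1 i (hBm i hi))) y
  have hdet : ∀ i ∈ B, ∀ j ∈ B, g i = g j → i = j := by
    intro i hi j hj hij
    obtain ⟨u, hu1, hu2⟩ := hu i hi
    rw [← hg4 i (hBm i hi) u hu1 hu2]
    rw [hij] at hu1
    exact hg4 j (hBm j hj) u hu1 hu2
  have hsplit : B ⊆ (B.filter (fun i => (g i).card < 3)) ∪
      (B.filter (fun i => 3 ≤ (g i).card ∧ (g i).card < r)) ∪
        (B.filter (fun i => r ≤ (g i).card)) := by
    intro i hi
    rw [Finset.mem_union, Finset.mem_union, Finset.mem_filter, Finset.mem_filter,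
      Finset.mem_filter]
    rcases lt_or_ge (g i).card 3 with h | h
    · exact Or.inl (Or.inl ⟨hi, h⟩)
    · rcases lt_or_ge (g i).card r with h' | h'
      · exact Or.inl (Or.inr ⟨hi, h, h'⟩)
      · exact Or.inr ⟨hi, h'⟩
  have h1 : (B.filter (fun i => (g i).card < 3)).card ≤ D0 := by
    refine le_trans ?_ (hNB W y)
    refine le_trans (Finset.card_le_card ?_) (Finset.card_image_le (f := f) (s := nb E W y))
    intro i hi
    rw [Finset.mem_filter] at hi
    obtain ⟨u, hu1, hu2⟩ := hu i hi.1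
    have hb := hBm i hi.1
    rw [Finset.mem_image]
    refine ⟨u, ?_, hg4 i hb u hu1 hu2⟩
    unfold nb
    rw [Finset.mem_filter]
    refine ⟨hg2 i hb hu1, hu2, ?_⟩
    have h2 : ({y, u} : Finset (Fin n)) = g i := by
      apply Finset.eq_of_subset_of_card_le
      · intro w hw
        rw [Finset.mem_insert, Finset.mem_singleton] at hw
        rcases hw with hw | hw
        · rw [hw]; exact hg3 i hb
        · rw [hw]; exact hu1
      · rw [Finset.card_pair (Ne.symm hu2)]
        have := hi.2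
        omega
    rw [h2]
    exact hg1 i hb
  have h2 : (B.filter (fun i => 3 ≤ (g i).card ∧ (g i).card < r)).card ≤
      ((E.filter (fun e => (y ∈ e ∧ 3 ≤ e.card ∧ e.card < r) ∧ e ⊆ W)).filter
        (fun e => ∀ u ∈ e.erase y, ∀ v ∈ e.erase y, f u = f v)).card := by
    refine Finset.card_le_card_of_injOn g ?_ ?_
    · intro i hi
      rw [Finset.mem_coe, Finset.mem_filter] at hi
      have hb := hBm i hi.1
      rw [Finset.mem_coe, Finset.mem_filter, Finset.mem_filter]
      refine ⟨⟨hg1 i hb, ⟨hg3 i hb, hi.2.1, hi.2.2⟩, hg2 i hb⟩, ?_⟩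
      intro u hu v hv
      rw [Finset.mem_erase] at hu hv
      rw [hg4 i hb u hu.2 hu.1, hg4 i hb v hv.2 hv.1]
    · intro i hi j hj hij
      rw [Finset.mem_coe, Finset.mem_filter] at hi hj
      exact hdet i hi.1 j hj.1 hij
  have h3 : (B.filter (fun i => r ≤ (g i).card)).card ≤
      (((W.erase y).powersetCard (r - 1)).filter
        (fun S => ∀ u ∈ S, ∀ v ∈ S, f u = f v)).card := by
    have hS : ∀ i, i ∈ B.filter (fun i => r ≤ (g i).card) →
        ∃ S : Finset (Fin n), S ⊆ (g i).erase y ∧ S.card = r - 1 := by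
      intro i hi
      rw [Finset.mem_filter] at hi
      apply Finset.exists_subset_card_eq
      rw [Finset.card_erase_of_mem (hg3 i (hBm i hi.1))]
      have := hi.2
      omega
    choose! S hS1 hS2 using hS
    refine Finset.card_le_card_of_injOn S ?_ ?_
    · intro i hi
      rw [Finset.mem_coe] at hi
      have hi' := (Finset.mem_filter.1 hi).1
      have hb := hBm i hi'
      rw [Finset.mem_coe, Finset.mem_filter, Finset.mem_powersetCard]
      refine ⟨⟨fun u hu => ?_, hS2 i hi⟩, ?_⟩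
      · have h4 := Finset.mem_erase.1 (hS1 i hi hu)
        exact Finset.mem_erase.2 ⟨h4.1, hg2 i hb h4.2⟩
      · intro u hu v hv
        have h4 := Finset.mem_erase.1 (hS1 i hi hu)
        have h5 := Finset.mem_erase.1 (hS1 i hi hv)
        rw [hg4 i hb u h4.2 h4.1, hg4 i hb v h5.2 h5.1]
    · intro i hi j hj hij
      rw [Finset.mem_coe] at hi hj
      have hne : (S i).Nonempty := by
        rw [← Finset.card_pos, hS2 i hi]; omega
      obtain ⟨u, hu⟩ := hne
      have h4 := Finset.mem_erase.1 (hS1 i hi hu)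
      rw [hij] at hu
      have h5 := Finset.mem_erase.1 (hS1 j hj hu)
      rw [← hg4 i (hBm i (Finset.mem_filter.1 hi).1) u h4.2 h4.1,
        hg4 j (hBm j (Finset.mem_filter.1 hj).1) u h5.2 h5.1]
  have h4 := Finset.card_le_card hsplit
  have h5 := Finset.card_union_le ((B.filter (fun i => (g i).card < 3)) ∪
      (B.filter (fun i => 3 ≤ (g i).card ∧ (g i).card < r))) (B.filter (fun i => r ≤ (g i).card))
  have h6 := Finset.card_union_le (B.filter (fun i => (g i).card < 3))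
      (B.filter (fun i => 3 ≤ (g i).card ∧ (g i).card < r))
  rw [hbk]
  omega

/-- double counting -/
theorem grw_dc {α β : Type} (s : Finset α) (t : Finset β) (p : α → β → Prop)
    [∀ a, DecidablePred (p a)] [∀ b, DecidablePred (fun a => p a b)] :
    ∑ a ∈ s, ((t.filter (p a)).card : ℝ) = ∑ b ∈ t, ((s.filter (fun a => p a b)).card : ℝ) := by
  have h := Finset.sum_card_bipartiteAbove_eq_sum_card_bipartiteBelow (s := s) (t := t) p
  unfold Finset.bipartiteAbove Finset.bipartiteBelow at h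
  exact_mod_cast h

theorem grw_sum {n k D0 r k0 : ℕ} (E : Finset (Finset (Fin n))) (W : Finset (Fin n)) (y : Fin n)
    (F : Finset (Fin n) → Finset (Fin n → ℕ)) (hE : Two E) (hr : 4 ≤ r) (hk0 : D0 + 1 < k0)
    (hk : k0 ≤ k) (hNB : NB E D0)
    (hw : ws E r ((k0 : ℝ) - (D0 + 1)) y + n.choose (r - 1) / ((k0 : ℝ) - (D0 + 1)) ^ (r - 2) ≤ 1)
    (hR : ∀ T ⊆ W.erase y, ∀ a ∈ T, ∀ f ∈ F (W.erase y), (∀ v ∈ T, f v = f a) →
      grw_rs T a f ∈ F (W.erase y \ T.erase a))
    (hI : ∀ U z, U ⊆ W.erase y → z ∈ U →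
      (k - (D0 + 1)) * (F (U.erase z)).card ≤ (F U).card) :
    ∑ f ∈ F (W.erase y), (bk E W k f y : ℝ) ≤ (D0 + 1) * (F (W.erase y)).card := by
  classical
  obtain ⟨V, hV⟩ : ∃ V, V = W.erase y := ⟨_, rfl⟩
  rw [← hV] at hR hI ⊢
  obtain ⟨κ, hκ⟩ : ∃ κ : ℝ, κ = (k0 : ℝ) - (D0 + 1) := ⟨_, rfl⟩
  rw [← hκ] at hw
  have hκ0 : 0 < κ := by
    rw [hκ]
    have : ((D0 + 1 : ℕ) : ℝ) < k0 := by exact_mod_cast hk0
    push_cast at this
    linarith
  have hkk : κ ≤ ((k - (D0 + 1) : ℕ) : ℝ) := by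
    rw [Nat.cast_sub (by omega), hκ]
    have : (k0 : ℝ) ≤ k := by exact_mod_cast hk
    push_cast
    linarith
  -- monochromatic sets
  have hmono : ∀ T ⊆ V, T.Nonempty →
      (((F V).filter (fun f => ∀ u ∈ T, ∀ v ∈ T, f u = f v)).card : ℝ) ≤
        (F V).card * (1 / κ) ^ (T.card - 1) := by
    intro T hTV hT
    have h1 := grw_mono F V T hTV hT (hR T hTV) hI
    have h2 : (((k - (D0 + 1) : ℕ) : ℝ)) ^ (T.card - 1) *
        (((F V).filter (fun f => ∀ u ∈ T, ∀ v ∈ T, f u = f v)).card : ℝ) ≤ (F V).card := by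
      exact_mod_cast h1
    have h3 : κ ^ (T.card - 1) ≤ (((k - (D0 + 1) : ℕ) : ℝ)) ^ (T.card - 1) :=
      pow_le_pow_left₀ hκ0.le hkk _
    have h4 : κ ^ (T.card - 1) *
        (((F V).filter (fun f => ∀ u ∈ T, ∀ v ∈ T, f u = f v)).card : ℝ) ≤ (F V).card :=
      (mul_le_mul_of_nonneg_right h3 (Nat.cast_nonneg _)).trans h2
    rw [one_div, inv_pow, ← div_eq_mul_inv, le_div_iff₀ (by positivity), mul_comm]
    exact h4
  -- the bound of the blocked colours
  obtain ⟨E1, hE1⟩ : ∃ E1, E1 = E.filter (fun e => (y ∈ e ∧ 3 ≤ e.card ∧ e.card < r) ∧ e ⊆ W) :=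
    ⟨_, rfl⟩
  have hb : ∀ f, (bk E W k f y : ℝ) ≤ D0 +
      ((E1.filter (fun e => ∀ u ∈ e.erase y, ∀ v ∈ e.erase y, f u = f v)).card : ℝ) +
      (((V.powersetCard (r - 1)).filter (fun S => ∀ u ∈ S, ∀ v ∈ S, f u = f v)).card : ℝ) := by
    intro f
    have h1 := grw_bk E W k r D0 f y hE hr hNB
    rw [← hE1, ← hV] at h1
    exact_mod_cast h1
  have hs1 : ∑ f ∈ F V,
      ((E1.filter (fun e => ∀ u ∈ e.erase y, ∀ v ∈ e.erase y, f u = f v)).card : ℝ) ≤
        (F V).card * ws E r κ y := by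
    rw [grw_dc (F V) E1 (fun f e => ∀ u ∈ e.erase y, ∀ v ∈ e.erase y, f u = f v)]
    have h1 : ∀ e ∈ E1,
        (((F V).filter (fun f => ∀ u ∈ e.erase y, ∀ v ∈ e.erase y, f u = f v)).card : ℝ) ≤
          (F V).card * (1 / κ) ^ (e.card - 2) := by
      intro e he
      rw [hE1, Finset.mem_filter] at he
      have hc := Finset.card_erase_of_mem he.2.1.1
      have h2 := hmono (e.erase y) (by
        rw [hV]; exact Finset.erase_subset_erase y he.2.2) (by
        rw [← Finset.card_pos, hc]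
        have := he.2.1.2.1
        omega)
      rw [hc] at h2
      have h3 : e.card - 1 - 1 = e.card - 2 := by omega
      rw [h3] at h2
      exact h2
    refine (Finset.sum_le_sum h1).trans ?_
    rw [← Finset.mul_sum]
    refine mul_le_mul_of_nonneg_left ?_ (Nat.cast_nonneg _)
    unfold ws
    refine Finset.sum_le_sum_of_subset_of_nonneg ?_ fun e _ _ => by positivity
    intro e he
    rw [hE1, Finset.mem_filter] at he
    exact Finset.mem_filter.2 ⟨he.1, he.2.1⟩
  have hs2 : ∑ f ∈ F V,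
      (((V.powersetCard (r - 1)).filter (fun S => ∀ u ∈ S, ∀ v ∈ S, f u = f v)).card : ℝ) ≤
        (F V).card * (n.choose (r - 1) / κ ^ (r - 2)) := by
    rw [grw_dc (F V) (V.powersetCard (r - 1)) (fun f S => ∀ u ∈ S, ∀ v ∈ S, f u = f v)]
    have h1 : ∀ S ∈ V.powersetCard (r - 1),
        (((F V).filter (fun f => ∀ u ∈ S, ∀ v ∈ S, f u = f v)).card : ℝ) ≤
          (F V).card * (1 / κ) ^ (r - 2) := by
      intro S hS
      rw [Finset.mem_powersetCard] at hS
      have h2 := hmono S hS.1 (by rw [← Finset.card_pos, hS.2]; omega)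
      rw [hS.2] at h2
      have h3 : r - 1 - 1 = r - 2 := by omega
      rw [h3] at h2
      exact h2
    refine (Finset.sum_le_sum h1).trans ?_
    rw [Finset.sum_const, nsmul_eq_mul, Finset.card_powersetCard]
    have h4 : (V.card.choose (r - 1) : ℝ) ≤ n.choose (r - 1) := by
      have h5 : V.card ≤ n := by
        have := Finset.card_le_univ V
        rwa [Fintype.card_fin] at this
      exact_mod_cast Nat.choose_le_choose (r - 1) h5
    have h6 : 0 ≤ ((F V).card : ℝ) * (1 / κ) ^ (r - 2) := by positivity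
    calc (V.card.choose (r - 1) : ℝ) * ((F V).card * (1 / κ) ^ (r - 2))
        ≤ n.choose (r - 1) * ((F V).card * (1 / κ) ^ (r - 2)) :=
          mul_le_mul_of_nonneg_right h4 h6
      _ = (F V).card * (n.choose (r - 1) / κ ^ (r - 2)) := by
          rw [one_div, inv_pow, div_eq_mul_inv]; ring
  have hN : (0 : ℝ) ≤ (F V).card := Nat.cast_nonneg _
  calc ∑ f ∈ F V, (bk E W k f y : ℝ)
      ≤ ∑ f ∈ F V, ((D0 : ℝ) +
        ((E1.filter (fun e => ∀ u ∈ e.erase y, ∀ v ∈ e.erase y, f u = f v)).card : ℝ) +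
        (((V.powersetCard (r - 1)).filter (fun S => ∀ u ∈ S, ∀ v ∈ S, f u = f v)).card : ℝ)) :=
        Finset.sum_le_sum fun f _ => hb f
    _ = (F V).card * D0 + (∑ f ∈ F V,
        ((E1.filter (fun e => ∀ u ∈ e.erase y, ∀ v ∈ e.erase y, f u = f v)).card : ℝ)) +
        ∑ f ∈ F V,
        (((V.powersetCard (r - 1)).filter (fun S => ∀ u ∈ S, ∀ v ∈ S, f u = f v)).card : ℝ) := by
        rw [Finset.sum_add_distrib, Finset.sum_add_distrib, Finset.sum_const, nsmul_eq_mul]
    _ ≤ (F V).card * D0 + (F V).card * ws E r κ y +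
        (F V).card * (n.choose (r - 1) / κ ^ (r - 2)) := by linarith
    _ = (F V).card * D0 + (F V).card * (ws E r κ y + n.choose (r - 1) / κ ^ (r - 2)) := by ring
    _ ≤ (F V).card * D0 + (F V).card * 1 := by
        have := mul_le_mul_of_nonneg_left hw hN
        linarith
    _ = (D0 + 1) * (F V).card := by ring

theorem grw_fin {n k D0 : ℕ} (E : Finset (Finset (Fin n))) (W : Finset (Fin n)) (y : Fin n)
    (S : Finset (Fin n → ℕ)) (hk : D0 + 1 ≤ k) (A : ℕ)
    (h : ∑ f ∈ S, (bk E W k f y : ℝ) ≤ (D0 + 1) * S.card)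
    (hA : ∑ f ∈ S, (k - bk E W k f y) ≤ A) : (k - (D0 + 1)) * S.card ≤ A := by
  have h1 : ((∑ f ∈ S, (k - bk E W k f y) : ℕ) : ℝ) ≤ A := by exact_mod_cast hA
  have h2 : ∑ f ∈ S, ((k : ℝ) - bk E W k f y) ≤ ((∑ f ∈ S, (k - bk E W k f y) : ℕ) : ℝ) := by
    rw [Nat.cast_sum]
    refine Finset.sum_le_sum fun f _ => ?_
    have : k ≤ (k - bk E W k f y) + bk E W k f y := by omega
    have h3 : (k : ℝ) ≤ ((k - bk E W k f y : ℕ) : ℝ) + bk E W k f y := by exact_mod_cast this
    linarith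
  rw [Finset.sum_sub_distrib, Finset.sum_const, nsmul_eq_mul] at h2
  have h4 : (((k - (D0 + 1)) * S.card : ℕ) : ℝ) ≤ A := by
    rw [Nat.cast_mul, Nat.cast_sub hk]
    push_cast
    linarith
  exact_mod_cast h4

theorem st_GRW (hCNT : ST_CNT) : ST_GRW := by
  classical
  intro n D0 r k0 E hE hr hk0 hNB hw k hk
  have main : ∀ m : ℕ, ∀ W : Finset (Fin n), W.card = m → ∀ y ∈ W,
      (k - (D0 + 1)) * PP E (W.erase y) k ≤ PP E W k ∧
        (k - (D0 + 1)) * AA E (W.erase y) k ≤ AA E W k := by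
    intro m
    induction m using Nat.strong_induction_on with
    | _ m ih =>
      intro W hW y hy
      have hlt : (W.erase y).card < m := by
        rw [← hW]; exact Finset.card_erase_lt_of_mem hy
      have hI : ∀ U z, U ⊆ W.erase y → z ∈ U →
          (k - (D0 + 1)) * PP E (U.erase z) k ≤ PP E U k ∧
            (k - (D0 + 1)) * AA E (U.erase z) k ≤ AA E U k := fun U z hU hz =>
        ih U.card (lt_of_le_of_lt (Finset.card_le_card hU) hlt) U rfl z hz
      obtain ⟨c1, c2⟩ := hCNT n k E W y hE hy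
      constructor
      · refine grw_fin E W y (CC E (W.erase y) k) (by omega) _ ?_ c1.ge
        exact grw_sum E W y (fun V => CC E V k) hE hr hk0 hk hNB (hw y)
          (fun T _ a _ f hf _ => grw_rsCC hf) (fun U z hU hz => (hI U z hU hz).1)
      · refine grw_fin E W y (SS E (W.erase y) k) (by omega) _ ?_ c2
        exact grw_sum E W y (fun V => SS E V k) hE hr hk0 hk hNB (hw y)
          (fun T hT a ha f hf hc => grw_rsSS hT ha hc hf) (fun U z hU hz => (hI U z hU hz).2)
  intro W y hy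
  exact main W.card W rfl y hy

end Pool.Agent.Helper5.WD
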